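import Pool.Agent.TH867.SB.Final

/-!
Solutions of `A X + B Y = C Z` counted by the radicals of `X`, `Y`, `Z`: reduction to coprime
triples `a + b = c`.
-/

set_option autoImplicit false

namespace Pool.Agent.TH574.AX

open Finset

/-- the product of the primes dividing `n` -/
def rad (n : ℕ) : ℕ := ∏ p ∈ n.primeFactors, p

theorem rad_pos (n : ℕ) : 0 < rad n :=
  Finset.prod_pos fun q hq => (Nat.prime_of_mem_primeFactors hq).pos

theorem rad_dvd (n : ℕ) : rad n ∣ n := Nat.prod_primeFactors_dvd n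

theorem rad_mul_gcd {x y : ℕ} (hx : x ≠ 0) (hy : y ≠ 0) :
    rad (x * y) * rad (Nat.gcd x y) = rad x * rad y := by
  unfold rad
  rw [Nat.primeFactors_mul hx hy, Nat.primeFactors_gcd hx hy, Finset.prod_union_inter]

theorem rad_mul_le {x y : ℕ} (hx : x ≠ 0) (hy : y ≠ 0) : rad (x * y) ≤ rad x * rad y := by
  rw [← rad_mul_gcd hx hy]
  exact Nat.le_mul_of_pos_right _ (rad_pos _)

theorem rad_le_of_dvd {x y : ℕ} (hy : y ≠ 0) (h : x ∣ y) : rad x ≤ rad y := by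
  unfold rad
  exact Finset.prod_le_prod_of_subset_of_one_le' (Nat.primeFactors_mono h hy)
    fun q hq _ => (Nat.prime_of_mem_primeFactors hq).one_le

/-- the radical of `g = gcd (X, Y)` occurs three times -/
theorem rad_sq {A B C X Y Z : ℕ} (hC : 0 < C) (hX : 0 < X) (hY : 0 < Y) (hZ : 0 < Z)
    (hdvd : Nat.gcd X Y ∣ C * Z) :
    rad (Nat.gcd X Y) ^ 2 * rad (X * Y * (C * Z)) ≤ rad C * (rad X * rad Y * rad Z) := by
  have h1 := rad_mul_gcd hX.ne' hY.ne'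
  have hXY : X * Y ≠ 0 := (Nat.mul_pos hX hY).ne'
  have hCZ : C * Z ≠ 0 := (Nat.mul_pos hC hZ).ne'
  have h2 := rad_mul_gcd hXY hCZ
  have h3 : rad (Nat.gcd X Y) ≤ rad (Nat.gcd (X * Y) (C * Z)) := by
    refine rad_le_of_dvd (Nat.gcd_pos_of_pos_left _ (Nat.mul_pos hX hY)).ne' ?_
    exact Nat.dvd_gcd ((Nat.gcd_dvd_left X Y).mul_right Y) hdvd
  have h4 := rad_mul_le hC.ne' hZ.ne'
  calc rad (Nat.gcd X Y) ^ 2 * rad (X * Y * (C * Z))
      = rad (Nat.gcd X Y) * (rad (X * Y * (C * Z)) * rad (Nat.gcd X Y)) := by ring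
    _ ≤ rad (Nat.gcd X Y) * (rad (X * Y * (C * Z)) * rad (Nat.gcd (X * Y) (C * Z))) := by
        gcongr
    _ = (rad (X * Y) * rad (Nat.gcd X Y)) * rad (C * Z) := by rw [h2]; ring
    _ = rad X * rad Y * rad (C * Z) := by rw [h1]
    _ ≤ rad X * rad Y * (rad C * rad Z) := by gcongr
    _ = rad C * (rad X * rad Y * rad Z) := by ring

/-- coprime pairs with the radical of `a b (a + b)` at most `x` -/
def T (x : ℝ) : Set (ℕ × ℕ) :=
  {p | 0 < p.1 ∧ 0 < p.2 ∧ Nat.Coprime p.1 p.2 ∧ ((rad (p.1 * p.2 * (p.1 + p.2)) : ℕ) : ℝ) ≤ x}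

/-- ordered pairs -/
def T' (x : ℝ) : Set (ℕ × ℕ) :=
  {p | 0 < p.1 ∧ p.1 ≤ p.2 ∧ Nat.Coprime p.1 p.2 ∧
    ((rad (p.1 * p.2 * (p.1 + p.2)) : ℕ) : ℝ) ≤ x}

open Pool.Agent.TH867.SR in
/-- the triple of a pair -/
def toT (p : ℕ × ℕ) : Fin 3 → ℕ := ![p.1, p.2, p.1 + p.2]

open Pool.Agent.TH867.SR

theorem toT_inj : Function.Injective toT := by
  intro p q h
  have h0 := congrFun h 0
  have h1 := congrFun h 1
  simp only [toT, Matrix.cons_val_zero, Matrix.cons_val_one] at h0 h1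
  exact Prod.ext h0 h1

theorem toT_tr {X : ℝ} {p : ℕ × ℕ} (hp : p ∈ T' X) :
    Tr (toT p) ∧ rr (toT p) 0 + rr (toT p) 1 + rr (toT p) 2 ≤ Real.log X := by
  obtain ⟨h1, h2, h3, h4⟩ := hp
  have ht : Tr (toT p) := ⟨h1, h2, h3, rfl⟩
  refine ⟨ht, ?_⟩
  rw [← rr_sum ht, ← log_prod_primes fun q hq => Nat.prime_of_mem_primeFactors hq]
  refine Real.log_le_log ?_ h4
  exact_mod_cast Finset.prod_pos fun q hq => (Nat.prime_of_mem_primeFactors hq).pos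

theorem T'_finite {X : ℝ} (hX : 1 ≤ X) : (T' X).Finite := by
  obtain ⟨H, hH⟩ : ∃ H, H = Real.exp (3000 * (1 + Real.log X) ^ 6) := ⟨_, rfl⟩
  refine Set.Finite.subset (Finset.finite_toSet
    ((Finset.range (⌊Real.exp H⌋₊ + 1)) ×ˢ (Finset.range (⌊Real.exp H⌋₊ + 1)))) ?_
  intro p hp
  have h5 := Pool.Agent.TH867.SM.height_le (toT_tr hp).1 hX (toT_tr hp).2
  rw [← hH] at h5
  obtain ⟨h1, h2, _, _⟩ := hp
  have h7 : toT p 2 = p.1 + p.2 := rfl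
  rw [h7] at h5
  have h6 : p.1 + p.2 ≤ ⌊Real.exp H⌋₊ := by
    refine Nat.le_floor ?_
    rw [← Real.log_le_iff_le_exp (by exact_mod_cast (by omega : 0 < p.1 + p.2))]
    exact h5
  simp only [Finset.coe_product, Finset.coe_range, Set.mem_prod, Set.mem_Iio]
  omega

theorem T_subset (x : ℝ) : T x ⊆ T' x ∪ Prod.swap '' T' x := by
  rintro ⟨a, b⟩ ⟨h1, h2, h3, h4⟩
  simp only at h1 h2 h3 h4
  rcases le_total a b with h | h
  · exact Or.inl ⟨h1, h, h3, h4⟩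
  · refine Or.inr ⟨(b, a), ⟨h2, h, h3.symm, ?_⟩, rfl⟩
    have e : b * a * (b + a) = a * b * (a + b) := by ring
    show ((rad (b * a * (b + a)) : ℕ) : ℝ) ≤ x
    rw [e]
    exact h4

theorem T_finite {x : ℝ} (hx : 1 ≤ x) : (T x).Finite :=
  ((T'_finite hx).union ((T'_finite hx).image _)).subset (T_subset x)

theorem T_card (ε : ℝ) (hε : 0 < ε) : ∃ D : ℝ, 0 < D ∧ ∀ x : ℝ, 1 ≤ x →
    ((T x).ncard : ℝ) ≤ D * x ^ (2 / 3 + ε) := by
  obtain ⟨D, hD, hup⟩ := Pool.Agent.TH867.SB.all_heights ε hε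
  refine ⟨2 * D, by positivity, fun x hx => ?_⟩
  have hfin := T'_finite hx
  have h1 : ((T' x).ncard : ℝ) ≤ D * x ^ (2 / 3 + ε) := by
    have h2 := hup x hx (hfin.toFinset.image toT) (by
      intro t ht
      obtain ⟨p, hp, rfl⟩ := Finset.mem_image.1 ht
      exact toT_tr (hfin.mem_toFinset.1 hp))
    rw [Finset.card_image_of_injective _ toT_inj] at h2
    rwa [Set.ncard_eq_toFinset_card _ hfin]
  have h2 : (T x).ncard ≤ (T' x).ncard + (T' x).ncard := by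
    refine (Set.ncard_le_ncard (T_subset x) (hfin.union (hfin.image _))).trans ?_
    refine (Set.ncard_union_le _ _).trans ?_
    exact Nat.add_le_add_left (Set.ncard_image_le hfin) _
  have h3 : ((T x).ncard : ℝ) ≤ (T' x).ncard + (T' x).ncard := by exact_mod_cast h2
  linarith

/-- the data of a solution -/
structure Sol (A B C : ℕ) (t : ℕ × ℕ × ℕ) : Prop where
  x : 0 < t.1
  y : 0 < t.2.1
  z : 0 < t.2.2
  eq : A * t.1 + B * t.2.1 = C * t.2.2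

/-- the coprime pair attached to a solution -/
def pr (A B : ℕ) (t : ℕ × ℕ × ℕ) : ℕ × ℕ :=
  (A * t.1 / Nat.gcd (A * t.1) (B * t.2.1), B * t.2.1 / Nat.gcd (A * t.1) (B * t.2.1))

variable {A B C : ℕ} {t : ℕ × ℕ × ℕ}

theorem pr_mul (A B : ℕ) (t : ℕ × ℕ × ℕ) :
    Nat.gcd (A * t.1) (B * t.2.1) * (pr A B t).1 = A * t.1 ∧
      Nat.gcd (A * t.1) (B * t.2.1) * (pr A B t).2 = B * t.2.1 :=
  ⟨Nat.mul_div_cancel' (Nat.gcd_dvd_left _ _), Nat.mul_div_cancel' (Nat.gcd_dvd_right _ _)⟩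

theorem pr_cop (hA : 0 < A) (h : Sol A B C t) : Nat.Coprime (pr A B t).1 (pr A B t).2 :=
  Nat.coprime_div_gcd_div_gcd (Nat.gcd_pos_of_pos_left _ (Nat.mul_pos hA h.x))

theorem pr_pos (hA : 0 < A) (hB : 0 < B) (h : Sol A B C t) :
    0 < (pr A B t).1 ∧ 0 < (pr A B t).2 := by
  obtain ⟨h1, h2⟩ := pr_mul A B t
  constructor
  · refine Nat.pos_of_ne_zero fun h0 => ?_
    rw [h0, mul_zero] at h1
    exact (Nat.mul_pos hA h.x).ne h1
  · refine Nat.pos_of_ne_zero fun h0 => ?_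
    rw [h0, mul_zero] at h2
    exact (Nat.mul_pos hB h.y).ne h2

theorem D_dvd (A B : ℕ) (x y : ℕ) : Nat.gcd (A * x) (B * y) ∣ A * B * Nat.gcd x y := by
  have h1 : Nat.gcd (A * x) (B * y) ∣ A * B * x :=
    (Nat.gcd_dvd_left _ _).trans ⟨B, by ring⟩
  have h2 : Nat.gcd (A * x) (B * y) ∣ A * B * y :=
    (Nat.gcd_dvd_right _ _).trans ⟨A, by ring⟩
  rw [← Nat.gcd_mul_left]
  exact Nat.dvd_gcd h1 h2

/-- the radical of the coprime triple -/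
theorem pr_rad (hA : 0 < A) (hB : 0 < B) (hC : 0 < C) (h : Sol A B C t) :
    rad (Nat.gcd t.1 t.2.1) ^ 2 *
        rad ((pr A B t).1 * (pr A B t).2 * ((pr A B t).1 + (pr A B t).2)) ≤
      (rad (A * B) * rad C) * (rad t.1 * rad t.2.1 * rad t.2.2) := by
  obtain ⟨h1, h2⟩ := pr_mul A B t
  set D := Nat.gcd (A * t.1) (B * t.2.1) with hD
  have hx := h.x
  have hy := h.y
  have hz := h.z
  have hg : Nat.gcd t.1 t.2.1 ∣ C * t.2.2 := by
    rw [← h.eq]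
    exact (dvd_mul_of_dvd_right (Nat.gcd_dvd_left _ _) _).add
      (dvd_mul_of_dvd_right (Nat.gcd_dvd_right _ _) _)
  have h3 := rad_sq (A := A) (B := B) hC hx hy hz hg
  have h4 : (pr A B t).1 * (pr A B t).2 * ((pr A B t).1 + (pr A B t).2) ∣
      A * B * (t.1 * t.2.1 * (C * t.2.2)) := by
    have e : D ^ 3 * ((pr A B t).1 * (pr A B t).2 * ((pr A B t).1 + (pr A B t).2)) =
        A * B * (t.1 * t.2.1 * (C * t.2.2)) := by
      calc _ = (D * (pr A B t).1) * (D * (pr A B t).2) *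
            (D * (pr A B t).1 + D * (pr A B t).2) := by ring
        _ = _ := by rw [h1, h2, h.eq]; ring
    exact ⟨D ^ 3, by rw [← e]; ring⟩
  have hP : t.1 * t.2.1 * (C * t.2.2) ≠ 0 :=
    (Nat.mul_pos (Nat.mul_pos hx hy) (Nat.mul_pos hC hz)).ne'
  have hAB : A * B ≠ 0 := (Nat.mul_pos hA hB).ne'
  have h5 := (rad_le_of_dvd (mul_ne_zero hAB hP) h4).trans (rad_mul_le hAB hP)
  calc rad (Nat.gcd t.1 t.2.1) ^ 2 *
        rad ((pr A B t).1 * (pr A B t).2 * ((pr A B t).1 + (pr A B t).2))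
      ≤ rad (Nat.gcd t.1 t.2.1) ^ 2 * (rad (A * B) * rad (t.1 * t.2.1 * (C * t.2.2))) := by
        gcongr
    _ = rad (A * B) * (rad (Nat.gcd t.1 t.2.1) ^ 2 * rad (t.1 * t.2.1 * (C * t.2.2))) := by ring
    _ ≤ rad (A * B) * (rad C * (rad t.1 * rad t.2.1 * rad t.2.2)) := by gcongr
    _ = _ := by ring

/-- the multiplier `k` with `gcd (A X, B Y) = rad (gcd (X, Y)) k` -/
theorem mult (h : Sol A B C t) {Q : ℝ}
    (hQ : ((Nat.gcd t.1 t.2.1 : ℕ) : ℝ) ≤ Q * rad (Nat.gcd t.1 t.2.1)) (hA : 0 < A) (hB : 0 < B) :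
    ∃ k : ℕ, Nat.gcd (A * t.1) (B * t.2.1) = rad (Nat.gcd t.1 t.2.1) * k ∧ 1 ≤ k ∧
      (k : ℝ) ≤ A * B * Q := by
  have h0 : rad (Nat.gcd t.1 t.2.1) ∣ Nat.gcd (A * t.1) (B * t.2.1) :=
    (rad_dvd _).trans (Nat.dvd_gcd ((Nat.gcd_dvd_left _ _).mul_left _)
      ((Nat.gcd_dvd_right _ _).mul_left _))
  obtain ⟨k, hk⟩ := h0
  refine ⟨k, hk, ?_, ?_⟩
  · refine Nat.pos_of_ne_zero fun hk0 => ?_
    rw [hk0, mul_zero] at hk
    exact (Nat.gcd_pos_of_pos_left _ (Nat.mul_pos hA h.x)).ne' hk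
  · have h1 : Nat.gcd (A * t.1) (B * t.2.1) ≤ A * B * Nat.gcd t.1 t.2.1 :=
      Nat.le_of_dvd (Nat.mul_pos (Nat.mul_pos hA hB) (Nat.gcd_pos_of_pos_left _ h.x))
        (D_dvd A B _ _)
    rw [hk] at h1
    have h2 : ((rad (Nat.gcd t.1 t.2.1) : ℕ) : ℝ) * k ≤
        A * B * ((Nat.gcd t.1 t.2.1 : ℕ) : ℝ) := by exact_mod_cast h1
    have hr : (0 : ℝ) < rad (Nat.gcd t.1 t.2.1) := by exact_mod_cast rad_pos _
    have h3 : (A : ℝ) * B * ((Nat.gcd t.1 t.2.1 : ℕ) : ℝ) ≤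
        A * B * (Q * rad (Nat.gcd t.1 t.2.1)) := by gcongr
    have h4 : ((rad (Nat.gcd t.1 t.2.1) : ℕ) : ℝ) * k ≤
        ((rad (Nat.gcd t.1 t.2.1) : ℕ) : ℝ) * (A * B * Q) := by linarith
    exact le_of_mul_le_mul_left h4 hr

/-- the solution is determined by `m`, `k` and the pair -/
def back (A B C : ℕ) (q : (ℕ × ℕ) × (ℕ × ℕ)) : ℕ × ℕ × ℕ :=
  (q.1.1 * q.1.2 * q.2.1 / A, q.1.1 * q.1.2 * q.2.2 / B, q.1.1 * q.1.2 * (q.2.1 + q.2.2) / C)

theorem back_eq (hA : 0 < A) (hB : 0 < B) (hC : 0 < C) (h : Sol A B C t) {m k : ℕ}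
    (hD : Nat.gcd (A * t.1) (B * t.2.1) = m * k) : back A B C ((m, k), pr A B t) = t := by
  obtain ⟨h1, h2⟩ := pr_mul A B t
  rw [hD] at h1 h2
  have h3 : m * k * ((pr A B t).1 + (pr A B t).2) = C * t.2.2 := by
    rw [mul_add, h1, h2, h.eq]
  unfold back
  simp only
  rw [h1, h2, h3, Nat.mul_div_cancel_left _ hA, Nat.mul_div_cancel_left _ hB,
    Nat.mul_div_cancel_left _ hC]

end Pool.Agent.TH574.AX
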